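import Mathlib
import Pool.Agent.Lib.MP_690138_an.Main

namespace Pool.Agent.Results.MP_690138_an.NonEssSelfAdjoint

/-- An operator no nonconstant polynomial of which is essentially self-adjoint lies in a
triangular algebra. -/
theorem result :
    ∀ (H : Type) [NormedAddCommGroup H] [InnerProductSpace ℂ H] [CompleteSpace H]
      [TopologicalSpace.SeparableSpace H] (T : H →L[ℂ] H),
      (∀ h : Polynomial ℂ, 0 < h.natDegree →
        ¬ IsCompactOperator (Polynomial.aeval T h - star (Polynomial.aeval T h) : H →L[ℂ] H)) →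
      ∃ A : Subalgebra ℂ (H →L[ℂ] H), T ∈ A ∧
        {x : H →L[ℂ] H | x ∈ A ∧ star x ∈ A} =
          Set.centralizer {x : H →L[ℂ] H | x ∈ A ∧ star x ∈ A} :=
  fun _ _ _ _ _ T hT => Pool.Agent.Lib.MP_690138_an.exists_triangular T hT

end Pool.Agent.Results.MP_690138_an.NonEssSelfAdjoint
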