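import Mathlib
import Pool.Agent.Lib.MP_690138_an.CubeFin

namespace Pool.Agent.Results.MP_690138_an.NotTriangular

open Pool.Agent.Lib.MP_690138_an.KS in
/-- On every separable infinite-dimensional complex Hilbert space some operator with compact cube
generates all of the bounded operators as a von Neumann algebra and lies in no triangular
algebra. -/
theorem result :
    ∀ (H : Type) [NormedAddCommGroup H] [InnerProductSpace ℂ H] [CompleteSpace H]
      [TopologicalSpace.SeparableSpace H], ¬ FiniteDimensional ℂ H →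
      ∃ A : H →L[ℂ] H, IsCompactOperator (A ^ 3 : H →L[ℂ] H) ∧
        (∀ M : VonNeumannAlgebra H, A ∈ M → ∀ x : H →L[ℂ] H, x ∈ M) ∧
        ∀ T : NonUnitalSubalgebra ℂ (H →L[ℂ] H), A ∈ T →
        ¬ ((∀ x ∈ {x : H →L[ℂ] H | x ∈ T ∧ star x ∈ T},
              ∀ y ∈ {x : H →L[ℂ] H | x ∈ T ∧ star x ∈ T}, x * y = y * x) ∧
            ∀ E : NonUnitalStarSubalgebra ℂ (H →L[ℂ] H), (∀ x ∈ E, ∀ y ∈ E, x * y = y * x) →
              {x : H →L[ℂ] H | x ∈ T ∧ star x ∈ T} ⊆ E →
              (E : Set (H →L[ℂ] H)) = {x : H →L[ℂ] H | x ∈ T ∧ star x ∈ T}) := by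
  intro H _ _ _ _ hH
  obtain ⟨A, hK, hM, hA⟩ := exists_cube hH
  refine ⟨A, hK, hM, fun T hT h => ?_⟩
  have h1 := centralizer_of_max h.1 h.2
  have h2 : (1 : H →L[ℂ] H) ∈ {x : H →L[ℂ] H | x ∈ T ∧ star x ∈ T} := by
    rw [h1]
    intro d _
    rw [mul_one, one_mul]
  exact hA (T.toSubalgebra h2.1) ⟨h1⟩ hT

end Pool.Agent.Results.MP_690138_an.NotTriangular
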